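import Pool.Agent.W743.BT.Defs
set_option autoImplicit false

/-! Summation of the dyadic shells: `S_PIECE → S_TK → S_TENF → S_MAIN`. -/

namespace Pool.Agent.W214.BT

open Set Filter MeasureTheory
open scoped Topology ContDiff FourierTransform ENNReal RealInnerProductSpace
open Pool.Agent.W773.BRA (E Bmp chi psi psi_bmp psi_contDiff sum_psi_tail prof prof_contDiff
  prof_compact)
open Pool.Agent.W743.BT

variable {n : ℕ}

lemma ch_cont (x : E n) : Continuous (fun ξ : E n => (Real.fourierChar ⟪ξ, x⟫ : ℂ)) :=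
  continuous_subtype_val.comp (Real.continuous_fourierChar.comp (by fun_prop))

lemma ch_norm (r : ℝ) : ‖(Real.fourierChar r : ℂ)‖ ≤ 1 := (Circle.norm_coe _).le

/-- the symbol of a shell -/
noncomputable def sh (n : ℕ) (δ : ℝ) (l : ℕ) (ξ : E n) : ℂ :=
  ((psi δ (2 ^ l * (1 - ‖ξ‖ ^ 2)) : ℝ) : ℂ)

lemma sh_eq (δ : ℝ) (l : ℕ) : sh n δ l = (prof (psi δ) (2 ^ l) 1 : E n → ℂ) := by
  funext ξ
  unfold sh prof
  rw [one_pow, div_one]

lemma sh_cont (δ : ℝ) (l : ℕ) : Continuous (sh n δ l) := by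
  rw [sh_eq]
  exact (prof_contDiff (psi_contDiff δ) _ _).continuous

lemma sh_comp (δ : ℝ) (l : ℕ) : HasCompactSupport (sh n δ l) := by
  rw [sh_eq]
  exact prof_compact (psi_bmp δ) (by positivity) one_pos

/-- partial sums -/
noncomputable def SK (δ : ℝ) (K : ℕ) (g : E n → ℂ) (x : E n) : ℂ :=
  ∑ k ∈ Finset.range K, (((2 : ℝ) ^ (-(k : ℝ) * δ) : ℝ) : ℂ) * TT (sh n δ k) g x

lemma SK_lim (hTK : S_TK) {δ : ℝ} (hδ : 0 < δ) (g : E n → ℂ) (hg : Integrable g)
    (hF : Integrable (𝓕 g)) (x : E n) :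
    Tendsto (fun K : ℕ => SK δ K g x) atTop
      (𝓝 (TT (fun ξ : E n => (((max (1 - ‖ξ‖ ^ 2) 0) ^ δ : ℝ) : ℂ)) g x)) := by
  set m : E n → ℝ := fun ξ => (max (1 - ‖ξ‖ ^ 2) 0) ^ δ with hm
  have hle1 : ∀ ξ : E n, 1 - ‖ξ‖ ^ 2 ≤ 1 := fun ξ => by
    have : 0 ≤ ‖ξ‖ ^ 2 := by positivity
    linarith
  have hm0 : ∀ ξ, 0 ≤ m ξ := fun ξ => Real.rpow_nonneg (le_max_right _ _) _
  have hm1 : ∀ ξ, m ξ ≤ 1 := fun ξ => Real.rpow_le_one (le_max_right _ _)
    (max_le (hle1 ξ) zero_le_one) hδ.le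
  have hmc : Continuous m := by
    rw [hm]
    apply Continuous.rpow_const (by fun_prop)
    intro ξ
    right; exact hδ.le
  have hSint : Integrable (fun ξ : E n => ((m ξ : ℝ) : ℂ) * 𝓕 g ξ) := by
    apply hF.bdd_mul (c := 1) (Complex.continuous_ofReal.comp hmc).aestronglyMeasurable
    filter_upwards with ξ
    rw [Function.comp_apply, Complex.norm_real, Real.norm_eq_abs, abs_of_nonneg (hm0 ξ)]
    exact hm1 ξ
  have hTint : ∀ k : ℕ, Integrable (fun ξ : E n => sh n δ k ξ * 𝓕 g ξ) := fun k =>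
    (hTK n (sh n δ k) (sh_cont δ k) (sh_comp δ k) g hg).2.1
  have e1 : ∀ K : ℕ, SK δ K g x = ∫ ξ : E n, (Real.fourierChar ⟪ξ, x⟫ : ℂ) *
      ((((∑ k ∈ Finset.range K, (2 : ℝ) ^ (-(k : ℝ) * δ) * psi δ (2 ^ k * (1 - ‖ξ‖ ^ 2)) : ℝ)) : ℂ)
        * 𝓕 g ξ) := by
    intro K
    unfold SK TT
    have hb : ∀ k : ℕ, Integrable (fun ξ : E n => (((2 : ℝ) ^ (-(k : ℝ) * δ) : ℝ) : ℂ) *
        ((Real.fourierChar ⟪ξ, x⟫ : ℂ) * (sh n δ k ξ * 𝓕 g ξ))) := by
      intro k
      apply Integrable.const_mul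
      apply (hTint k).bdd_mul (c := 1)
      · exact (ch_cont x).aestronglyMeasurable
      · exact Eventually.of_forall fun ξ => ch_norm _
    have h2 : ∀ k : ℕ, (((2 : ℝ) ^ (-(k : ℝ) * δ) : ℝ) : ℂ) *
        𝓕⁻ (fun ξ : E n => sh n δ k ξ * 𝓕 g ξ) x =
        ∫ ξ : E n, (((2 : ℝ) ^ (-(k : ℝ) * δ) : ℝ) : ℂ) *
        ((Real.fourierChar ⟪ξ, x⟫ : ℂ) * (sh n δ k ξ * 𝓕 g ξ)) := by
      intro k
      rw [integral_const_mul, Real.fourierInv_eq]
      rfl
    simp_rw [h2]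
    rw [← integral_finsetSum _ fun k _ => hb k]
    apply integral_congr_ae
    filter_upwards with ξ
    unfold sh
    rw [Complex.ofReal_sum, Finset.sum_mul, Finset.mul_sum]
    apply Finset.sum_congr rfl
    intro k _
    push_cast
    ring
  have e2 : TT (fun ξ : E n => ((m ξ : ℝ) : ℂ)) g x = ∫ ξ : E n, (Real.fourierChar ⟪ξ, x⟫ : ℂ) *
      (((m ξ : ℝ) : ℂ) * 𝓕 g ξ) := by
    unfold TT
    rw [Real.fourierInv_eq]
    rfl
  rw [e2]
  simp_rw [e1]
  rw [tendsto_iff_norm_sub_tendsto_zero]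
  have hgeo : Tendsto (fun K : ℕ => ((2 * (1 / 2 : ℝ) ^ K) ^ δ) * ∫ ξ : E n, ‖𝓕 g ξ‖)
      atTop (𝓝 0) := by
    have h1 : Tendsto (fun K : ℕ => 2 * (1 / 2 : ℝ) ^ K) atTop (𝓝 0) := by
      have := (tendsto_pow_atTop_nhds_zero_of_lt_one (r := (1 / 2 : ℝ)) (by norm_num)
        (by norm_num)).const_mul 2
      simpa using this
    have h2 : Tendsto (fun K : ℕ => (2 * (1 / 2 : ℝ) ^ K) ^ δ) atTop (𝓝 0) := by
      have := h1.rpow_const (p := δ) (Or.inr hδ.le)
      rwa [Real.zero_rpow hδ.ne'] at this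
    simpa using h2.mul_const _
  refine squeeze_zero (fun K => norm_nonneg _) (fun K => ?_) hgeo
  have hint1 : Integrable (fun ξ : E n => (Real.fourierChar ⟪ξ, x⟫ : ℂ) *
      ((((∑ k ∈ Finset.range K, (2 : ℝ) ^ (-(k : ℝ) * δ) * psi δ (2 ^ k * (1 - ‖ξ‖ ^ 2)) : ℝ)) : ℂ)
        * 𝓕 g ξ)) := by
    apply Integrable.bdd_mul (c := 1)
    · apply hF.bdd_mul (c := 1 + (2 * (1 / 2 : ℝ) ^ K) ^ δ)
      · apply Continuous.aestronglyMeasurable
        apply Complex.continuous_ofReal.comp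
        apply continuous_finsetSum
        intro k _
        exact continuous_const.mul ((psi_contDiff δ).continuous.comp (by fun_prop))
      · filter_upwards with ξ
        rw [Complex.norm_real, Real.norm_eq_abs]
        have h3 := sum_psi_tail hδ (hle1 ξ) K
        have h4 : |(max (1 - ‖ξ‖ ^ 2) 0) ^ δ| ≤ 1 := by
          rw [abs_of_nonneg (hm0 ξ)]; exact hm1 ξ
        have h5 := abs_sub_abs_le_abs_sub (∑ k ∈ Finset.range K, (2 : ℝ) ^ (-(k : ℝ) * δ) *
          psi δ (2 ^ k * (1 - ‖ξ‖ ^ 2))) ((max (1 - ‖ξ‖ ^ 2) 0) ^ δ)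
        rw [abs_sub_comm] at h5
        linarith
    · exact (ch_cont x).aestronglyMeasurable
    · exact Eventually.of_forall fun ξ => ch_norm _
  have hint2 : Integrable (fun ξ : E n => (Real.fourierChar ⟪ξ, x⟫ : ℂ) *
      (((m ξ : ℝ) : ℂ) * 𝓕 g ξ)) := by
    apply hSint.bdd_mul (c := 1)
    · exact (ch_cont x).aestronglyMeasurable
    · exact Eventually.of_forall fun ξ => ch_norm _
  rw [← integral_sub hint1 hint2, ← integral_const_mul]
  apply norm_integral_le_of_norm_le (hF.norm.const_mul _)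
  filter_upwards with ξ
  rw [← mul_sub, ← sub_mul, norm_mul, norm_mul, Circle.norm_coe, one_mul, ← Complex.ofReal_sub,
    Complex.norm_real, Real.norm_eq_abs, abs_sub_comm]
  gcongr
  exact sum_psi_tail hδ (hle1 ξ) K

/-- the Fourier transform of a sum of products is integrable -/
lemma tens_F_int (hTENF : S_TENF) (M : ℕ) (f : Fin M → Fin n → ℝ → ℂ)
    (hf : ∀ k j, Nice (f k j) ∧ Integrable (𝓕 (f k j))) :
    Integrable (𝓕 (tens f)) := by
  have h := (hTENF n M f fun k j => (hf k j).1).2.2.2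
  have e : 𝓕 (tens f) = fun ξ : E n => ∑ k, ∏ j, 𝓕 (f k j) (ξ j) := funext h
  rw [e]
  apply integrable_finsetSum
  intro k _
  have h1 : Integrable (fun y : Fin n → ℝ => ∏ j, 𝓕 (f k j) (y j)) :=
    Integrable.fintype_prod (fun j => (hf k j).2)
  exact (PiLp.volume_preserving_ofLp (Fin n)).integrable_comp_of_integrable h1

theorem main (hP : S_PIECE) (hTK : S_TK) (hTENF : S_TENF) : S_MAIN := by
  intro n hn p δ hp hδ h
  have hp0 : 0 < p := by linarith
  have hEp : Ep n p < δ := max_lt hδ h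
  set ε : ℝ := (δ - Ep n p) / 2 with hε
  have hε0 : 0 < ε := by rw [hε]; linarith
  obtain ⟨A, hA, hpc⟩ := hP n hn p hp (psi δ) (psi_bmp δ) ε hε0
  set q : ℝ := (2 : ℝ) ^ (Ep n p + ε - δ) with hq
  have hq0 : 0 < q := by positivity
  have hq1 : q < 1 := by
    apply Real.rpow_lt_one_of_one_lt_of_neg (by norm_num)
    rw [hε]; linarith
  refine ⟨A * (1 - q)⁻¹, by
    have : 0 < 1 - q := by linarith
    positivity, fun M f hf => ?_⟩
  have hnice : ∀ k j, Nice (f k j) := fun k j => (hf k j).1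
  have hgi : Integrable (tens f : E n → ℂ) := (hTENF n M f hnice).2.1
  have hFi : Integrable (𝓕 (tens f) : E n → ℂ) := tens_F_int hTENF M f hf
  set P : ℝ≥0∞ := ∏ j, (∫⁻ t, sq (fun k => f k j) t ^ (p / 2)) ^ (1 / p) with hPdef
  have hTk : ∀ k : ℕ, eLpNorm (TT (sh n δ k) (tens f)) (ENNReal.ofReal p) volume ≤
      ENNReal.ofReal (A * 2 ^ ((k : ℝ) * (Ep n p + ε))) * P := fun k => hpc k M f hnice
  have hmeas : ∀ k : ℕ, AEStronglyMeasurable (TT (sh n δ k) (tens f)) volume :=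
    fun k => ((hTK n (sh n δ k) (sh_cont δ k) (sh_comp δ k) _ hgi).1).aestronglyMeasurable
  have hmeas2 : ∀ k : ℕ, AEStronglyMeasurable (fun z : E n =>
      (((2 : ℝ) ^ (-(k : ℝ) * δ) : ℝ) : ℂ) * TT (sh n δ k) (tens f) z) volume :=
    fun k => (hmeas k).const_mul _
  have e0 : ∀ K : ℕ, SK δ K (tens f) = ∑ k ∈ Finset.range K, fun z : E n =>
      (((2 : ℝ) ^ (-(k : ℝ) * δ) : ℝ) : ℂ) * TT (sh n δ k) (tens f) z := by
    intro K
    funext z
    simp [SK]
  have hSKm : ∀ K : ℕ, AEStronglyMeasurable (SK δ K (tens f) : E n → ℂ) volume := by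
    intro K
    rw [e0]
    exact Finset.aestronglyMeasurable_sum _ fun k _ => hmeas2 k
  have hSK : ∀ K : ℕ, eLpNorm (SK δ K (tens f) : E n → ℂ) (ENNReal.ofReal p) volume ≤
      ENNReal.ofReal (A * (1 - q)⁻¹) * P := by
    intro K
    have hp1 : 1 ≤ ENNReal.ofReal p := by
      rw [← ENNReal.ofReal_one]; exact ENNReal.ofReal_le_ofReal hp.le
    rw [e0]
    refine (eLpNorm_sum_le (fun k _ => hmeas2 k) hp1).trans ?_
    have h2 : ∀ k ∈ Finset.range K, eLpNorm (fun z : E n =>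
        (((2 : ℝ) ^ (-(k : ℝ) * δ) : ℝ) : ℂ) * TT (sh n δ k) (tens f) z) (ENNReal.ofReal p) volume ≤
        ENNReal.ofReal (A * q ^ k) * P := by
      intro k _
      have h3 : eLpNorm (fun z : E n =>
          (((2 : ℝ) ^ (-(k : ℝ) * δ) : ℝ) : ℂ) * TT (sh n δ k) (tens f) z) (ENNReal.ofReal p) volume =
          ENNReal.ofReal ((2 : ℝ) ^ (-(k : ℝ) * δ)) *
            eLpNorm (TT (sh n δ k) (tens f)) (ENNReal.ofReal p) volume := by
        have := eLpNorm_const_smul (((2 : ℝ) ^ (-(k : ℝ) * δ) : ℝ) : ℂ)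
          (TT (sh n δ k) (tens f)) (ENNReal.ofReal p) volume
        rw [← ofReal_norm, Complex.norm_real, Real.norm_eq_abs, abs_of_pos (by positivity)] at this
        exact this
      rw [h3]
      refine (mul_le_mul_right (hTk k) _).trans ?_
      rw [← mul_assoc, ← ENNReal.ofReal_mul (by positivity)]
      apply le_of_eq
      congr 2
      rw [hq, ← Real.rpow_natCast, ← Real.rpow_mul (by norm_num), ← mul_assoc,
        mul_comm ((2 : ℝ) ^ (-(k : ℝ) * δ)), mul_assoc, ← Real.rpow_add (by norm_num)]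
      congr 2
      ring
    refine (Finset.sum_le_sum h2).trans ?_
    rw [← Finset.sum_mul]
    gcongr
    rw [← ENNReal.ofReal_sum_of_nonneg (fun k _ => by positivity)]
    apply ENNReal.ofReal_le_ofReal
    rw [← Finset.mul_sum]
    gcongr
    exact (Summable.sum_le_tsum _ (fun k _ => by positivity)
      (summable_geometric_of_lt_one hq0.le hq1)).trans (le_of_eq (tsum_geometric_of_lt_one hq0.le hq1))
  have hlim : ∀ᵐ z ∂(volume : Measure (E n)), Tendsto (fun K : ℕ => SK δ K (tens f) z) atTop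
      (𝓝 (TT (fun ξ : E n => (((max (1 - ‖ξ‖ ^ 2) 0) ^ δ : ℝ) : ℂ)) (tens f) z)) :=
    Eventually.of_forall fun z => SK_lim hTK hδ _ hgi hFi z
  refine (Lp.eLpNorm_lim_le_liminf_eLpNorm hSKm _ hlim).trans ?_
  refine liminf_le_of_frequently_le' ?_
  exact Eventually.frequently (Eventually.of_forall hSK)

end Pool.Agent.W214.BT
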